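import Pool.Agent.helper64.PB.SpecF

/-!
# pb:BAS — the base function
-/

set_option autoImplicit false

namespace Pool.Agent.PB

open Finset Polynomial

open Classical in
/-- the base function on `N` numbered variables -/
noncomputable def BAS_h {K : Type} [Field K] [Fintype K] [DecidableEq K] (c J N : ℕ) (ρ : K × K ≃ Fin N) : BF N :=
  fun z => decide (SP c J fun k => z (ρ k))

theorem BAS_h_iff {K : Type} [Field K] [Fintype K] [DecidableEq K] (c J N : ℕ) (ρ : K × K ≃ Fin N)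
    (z : Fin N → Bool) : BAS_h c J N ρ z = true ↔ SP c J fun k => z (ρ k) := by
  unfold BAS_h
  simp only [decide_eq_true_eq]

theorem BAS_mono {K : Type} [Field K] [Fintype K] [DecidableEq K] (c J N : ℕ) (ρ : K × K ≃ Fin N) :
    Mono (BAS_h c J N ρ) := by
  intro x y hxy hx
  rw [BAS_h_iff] at hx ⊢
  obtain ⟨V, hV, hg⟩ := hx
  exact ⟨V, fun z hz => hxy _ (hV z hz), hg⟩

open Classical in
theorem BAS_size (hGXR : GXR_stmt) (C : ℕ) (hC : ∀ (N : ℕ) (W : Set (Fin N → Bool)),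
    (∀ u ∈ W, ∀ v ∈ W, ∀ w ∈ W, (fun i => xor (u i) (xor (v i) (w i))) ∈ W) →
    Size std (fun x : Fin N → Bool =>
      decide (∃ v ∈ W, ∀ i, v i = true → x i = true)) (C * (N + 2) ^ 4))
    {K : Type} [Field K] [Fintype K] [DecidableEq K] [CharP K 2] (c J N : ℕ) (ρ : K × K ≃ Fin N) :
    Size std (BAS_h c J N ρ) (C * (N + 2) ^ 4) := by
  obtain ⟨W, hW⟩ : ∃ W : Set (Fin N → Bool), W = {v | Good c J (univ.filter fun k => v (ρ k) = true)} := ⟨_, rfl⟩
  have hWm : ∀ v, v ∈ W ↔ Good c J (univ.filter fun k => v (ρ k) = true) := by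
    intro v
    rw [hW, Set.mem_ofPred_eq]
  have h := hC N W ?_
  · have e : BAS_h c J N ρ = fun x : Fin N → Bool =>
        decide (∃ v ∈ W, ∀ i, v i = true → x i = true) := by
      funext x
      rw [Bool.eq_iff_iff, BAS_h_iff, decide_eq_true_iff]
      constructor
      · rintro ⟨V, hV, hg⟩
        refine ⟨fun i => decide (ρ.symm i ∈ V), ?_, ?_⟩
        · rw [hWm]
          have e2 : (univ.filter fun k : K × K => decide (ρ.symm (ρ k) ∈ V) = true) = V := by
            ext k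
            simp
          rw [e2]
          exact hg
        · intro i hi
          have h1 : ρ.symm i ∈ V := by simpa using hi
          have h2 : x (ρ (ρ.symm i)) = true := hV _ h1
          rwa [Equiv.apply_symm_apply] at h2
      · rintro ⟨v, hv, hx⟩
        rw [hWm] at hv
        refine ⟨_, ?_, hv⟩
        intro z hz
        exact hx _ (Finset.mem_filter.1 hz).2
    rw [e]
    exact h
  · intro u hu v hv w hw
    rw [hWm] at hu hv hw ⊢
    have h3 := hGXR K c J _ _ _ hu hv hw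
    have e3 : (univ.filter fun k : K × K => xor (u (ρ k)) (xor (v (ρ k)) (w (ρ k))) = true) =
        symmDiff (univ.filter fun k => u (ρ k) = true)
          (symmDiff (univ.filter fun k => v (ρ k) = true) (univ.filter fun k => w (ρ k) = true)) := by
      ext k
      simp only [mem_filter, mem_univ, true_and, mem_symmDiff]
      cases u (ρ k) <;> cases v (ρ k) <;> cases w (ρ k) <;> simp
    rw [e3]
    exact h3

theorem BAS_num (C e : ℕ) (he : 16 ≤ e) : C * (2 ^ (16 * e) + 2) ^ 4 ≤ 2 ^ ((68 + C) * e) := by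
  have h1 : 2 ^ (16 * e) + 2 ≤ 2 ^ (17 * e) := by
    have h2 : (2 : ℕ) ≤ 2 ^ (16 * e) := by
      calc (2 : ℕ) = 2 ^ 1 := by norm_num
        _ ≤ 2 ^ (16 * e) := Nat.pow_le_pow_right (by norm_num) (by omega)
    calc 2 ^ (16 * e) + 2 ≤ 2 ^ (16 * e) + 2 ^ (16 * e) := by omega
      _ = 2 ^ (16 * e + 1) := by ring
      _ ≤ 2 ^ (17 * e) := Nat.pow_le_pow_right (by norm_num) (by omega)
  have h3 : C ≤ 2 ^ (C * e) := by
    calc C ≤ 2 ^ C := Nat.lt_two_pow_self.le
      _ ≤ 2 ^ (C * e) := Nat.pow_le_pow_right (by norm_num) (Nat.le_mul_of_pos_right _ (by omega))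
  calc C * (2 ^ (16 * e) + 2) ^ 4 ≤ 2 ^ (C * e) * (2 ^ (17 * e)) ^ 4 :=
        Nat.mul_le_mul h3 (Nat.pow_le_pow_left h1 4)
    _ = 2 ^ ((68 + C) * e) := by
        rw [← pow_mul, ← pow_add]
        congr 1
        ring

theorem BAS_size_mono {G : Set Gate} {n : ℕ} {f : BF n} {s s' : ℕ} (h : Size G f s) (hs : s ≤ s') :
    Size G f s' := by
  obtain ⟨l, h1, h2, h3⟩ := h
  exact ⟨l, h1, h2.trans hs, h3⟩

theorem BAS_low (hFPO : FPO_stmt) (hNEG : NEG_stmt) (hBLO : BLO_stmt) {K : Type} [Field K] [Fintype K]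
    [DecidableEq K] [CharP K 2] (e N : ℕ) (he : 16 ≤ e) (hK : Fintype.card K = 2 ^ (8 * e))
    (ε : K ≃ Fin (16 * 2 ^ e) × Fin (2 ^ (7 * e - 4))) (ρ : K × K ≃ Fin N) (s : ℕ)
    (hs : Size mon (BAS_h (2 * 2 ^ e) (2 ^ (3 * e + 4)) N ρ) s) : 2 ^ (2 ^ e) ≤ s := by
  refine hBLO K e N ε ρ _ s he hK hs ?_ ?_
  · intro a
    rw [BAS_h_iff]
    refine hFPO K _ _ a _ ?_
    intro α
    simp only [Equiv.symm_apply_apply]
    unfold gr
    simp
  · have h := hNEG K e ε he hK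
    have e1 : ∀ ω : Fin (2 ^ (2 * e)) → (K × Fin (16 * 2 ^ e) → Fin (2 ^ (7 * e - 4))),
        (BAS_h (2 * 2 ^ e) (2 ^ (3 * e + 4)) N ρ (fun i => Ng ε ω (ρ.symm i)) = true) =
          SP (2 * 2 ^ e) (2 ^ (3 * e + 4)) (Ng ε ω) := by
      intro ω
      rw [BAS_h_iff]
      simp only [Equiv.symm_apply_apply]
    simp only [e1]
    exact h

theorem BAS (hFPO : FPO_stmt) (hNEG : NEG_stmt) (hBLO : BLO_stmt) (hGS3 : GS3_stmt) (hGXR : GXR_stmt) :
    BAS_stmt := by
  obtain ⟨C, hC⟩ := hGS3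
  refine ⟨68 + C, 16, by norm_num, fun e he => ?_⟩
  have : Fact (Nat.Prime 2) := ⟨Nat.prime_two⟩
  let iF : Fintype (GaloisField 2 (8 * e)) := Fintype.ofFinite _
  let iD : DecidableEq (GaloisField 2 (8 * e)) := Classical.decEq _
  have hK : Fintype.card (GaloisField 2 (8 * e)) = 2 ^ (8 * e) := by
    rw [← Nat.card_eq_fintype_card]
    exact GaloisField.card 2 (8 * e) (by omega)
  have hε : Nonempty (GaloisField 2 (8 * e) ≃ Fin (16 * 2 ^ e) × Fin (2 ^ (7 * e - 4))) := by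
    refine ⟨Fintype.equivOfCardEq ?_⟩
    rw [hK, Fintype.card_prod, Fintype.card_fin, Fintype.card_fin]
    have h16 : 16 = 2 ^ 4 := by norm_num
    rw [h16, ← pow_add, ← pow_add]
    congr 1
    omega
  have hρ : Nonempty (GaloisField 2 (8 * e) × GaloisField 2 (8 * e) ≃ Fin (2 ^ (16 * e))) := by
    refine ⟨Fintype.equivOfCardEq ?_⟩
    rw [Fintype.card_prod, hK, Fintype.card_fin, ← pow_add]
    congr 1
    omega
  obtain ⟨ε⟩ := hε
  obtain ⟨ρ⟩ := hρ
  refine ⟨BAS_h (2 * 2 ^ e) (2 ^ (3 * e + 4)) (2 ^ (16 * e)) ρ, BAS_mono _ _ _ ρ, ?_, ?_⟩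
  · exact BAS_size_mono (BAS_size hGXR C hC _ _ _ ρ) (BAS_num C e he)
  · intro s hs
    exact BAS_low hFPO hNEG hBLO e _ he hK ε ρ s hs

end Pool.Agent.PB
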