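import Pool.Agent.helper64.PB.SpecL

/-!
# pb:NPA — the extended languages are in NP/Poly
-/

set_option autoImplicit false

namespace Pool.Agent.PB

theorem NPA_mono {G : Set Gate} {n : ℕ} {f : BF n} {s s' : ℕ} (h : Size G f s) (hs : s ≤ s') :
    Size G f s' := by
  obtain ⟨l, h1, h2, h3⟩ := h
  exact ⟨l, h1, h2.trans hs, h3⟩

theorem NPA_var (G : Set Gate) (n : ℕ) (j : Fin n) : Size G (fun x : Fin n → Bool => x j) 0 :=
  ⟨[], Prog.nil, le_rfl, Or.inr ⟨j, rfl⟩⟩

theorem NPA_false (n : ℕ) : Size std (fun _ : Fin n → Bool => false) 1 := by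
  refine ⟨[fun _ => false], ?_, le_rfl, Or.inl (List.mem_singleton.2 rfl)⟩
  have h := Prog.step (G := std) (n := n) [] (gConst false) (fun i => i.elim0) Prog.nil
    (by unfold std; simp) (fun i => i.elim0)
  exact h

/-- the numbering of the variables of the new circuit -/
def NPA_i (n w : ℕ) : Fin (n + w) → Fin (n + 2 + w) :=
  Fin.addCases (fun i => Fin.castAdd w (Fin.castAdd 2 i)) (fun j => Fin.natAdd (n + 2) j)

theorem NPA_app (n w : ℕ) (z : Fin (n + 2) → Bool) (y : Fin w → Bool) :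
    (fun i => (Fin.append z y : Fin (n + 2 + w) → Bool) (NPA_i n w i)) =
      (Fin.append (fun i => z (Fin.castAdd 2 i)) y : Fin (n + w) → Bool) := by
  funext i
  refine Fin.addCases (fun i => ?_) (fun j => ?_) i
  · unfold NPA_i
    rw [Fin.addCases_left, Fin.append_left, Fin.append_left]
  · unfold NPA_i
    rw [Fin.addCases_right, Fin.append_right, Fin.append_right]

/-- the new circuit for `eA` -/
def NPA_FA (n w : ℕ) (f : BF (n + w)) : BF (n + 2 + w) := fun x =>
  (x (Fin.castAdd w (Fin.natAdd n 0)) && !(x (Fin.castAdd w (Fin.natAdd n 1))) && f fun i => x (NPA_i n w i)) ||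
    decide (∀ i : Fin (n + 2), x (Fin.castAdd w i) = true)

/-- the new circuit for `eO` -/
def NPA_FO (n w : ℕ) (f : BF (n + w)) : BF (n + 2 + w) := fun x =>
  (x (Fin.castAdd w (Fin.natAdd n 0)) || !(x (Fin.castAdd w (Fin.natAdd n 1))) || f fun i => x (NPA_i n w i)) &&
    decide (∃ i : Fin (n + 2), x (Fin.castAdd w i) = true)

theorem NPA_valA (n w : ℕ) (f : BF (n + w)) (z : Fin (n + 2) → Bool) (y : Fin w → Bool) :
    NPA_FA n w f (Fin.append z y) =
      ((z (Fin.natAdd n 0) && !(z (Fin.natAdd n 1)) &&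
        f (Fin.append (fun i => z (Fin.castAdd 2 i)) y : Fin (n + w) → Bool)) || decide (∀ i, z i = true)) := by
  unfold NPA_FA
  rw [NPA_app]
  simp only [Fin.append_left]

theorem NPA_valO (n w : ℕ) (f : BF (n + w)) (z : Fin (n + 2) → Bool) (y : Fin w → Bool) :
    NPA_FO n w f (Fin.append z y) =
      ((z (Fin.natAdd n 0) || !(z (Fin.natAdd n 1)) ||
        f (Fin.append (fun i => z (Fin.castAdd 2 i)) y : Fin (n + w) → Bool)) && decide (∃ i, z i = true)) := by
  unfold NPA_FO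
  rw [NPA_app]
  simp only [Fin.append_left]

theorem NPA_sizeA (hREN : REN_stmt) (hBIN : BIN_stmt) (n w s : ℕ) (f : BF (n + w)) (hf : Size std f s) :
    Size std (NPA_FA n w f) (s + w + 2 * n + 11) := by
  have h1 := hREN (n + w) (n + 2 + w) f s (fun i x => x (NPA_i n w i)) (fun i => Or.inl ⟨_, rfl⟩) hf
  have ha := NPA_var std (n + 2 + w) (Fin.castAdd w (Fin.natAdd n 0))
  have hb := (hBIN.1 _ _ _ _ _ (NPA_var std (n + 2 + w) (Fin.castAdd w (Fin.natAdd n 1)))
    (NPA_var std (n + 2 + w) (Fin.castAdd w (Fin.natAdd n 1)))).2.2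
  have hab := (hBIN.1 _ _ _ _ _ ha hb).1
  have habf := (hBIN.1 _ _ _ _ _ hab h1).1
  have hal := (hBIN.2 (n + 2) (n + 2 + w) (Fin.castAdd w)).1
  have htot := (hBIN.1 _ _ _ _ _ habf hal).2.1
  exact NPA_mono htot (by omega)

theorem NPA_sizeO (hREN : REN_stmt) (hBIN : BIN_stmt) (n w s : ℕ) (f : BF (n + w)) (hf : Size std f s) :
    Size std (NPA_FO n w f) (s + w + 2 * n + 11) := by
  have h1 := hREN (n + w) (n + 2 + w) f s (fun i x => x (NPA_i n w i)) (fun i => Or.inl ⟨_, rfl⟩) hf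
  have ha := NPA_var std (n + 2 + w) (Fin.castAdd w (Fin.natAdd n 0))
  have hb := (hBIN.1 _ _ _ _ _ (NPA_var std (n + 2 + w) (Fin.castAdd w (Fin.natAdd n 1)))
    (NPA_var std (n + 2 + w) (Fin.castAdd w (Fin.natAdd n 1)))).2.2
  have hab := (hBIN.1 _ _ _ _ _ ha hb).2.1
  have habf := (hBIN.1 _ _ _ _ _ hab h1).2.1
  have hal := (hBIN.2 (n + 2) (n + 2 + w) (Fin.castAdd w)).2
  have htot := (hBIN.1 _ _ _ _ _ habf hal).1
  exact NPA_mono htot (by omega)

theorem NPA_bound (c d : ℕ) (hd : ∀ n : ℕ, 8 * ((n + 2) ^ c + n + c + 2) ≤ n ^ d + d) (n w : ℕ)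
    (hw : w ≤ n ^ c + c) :
    w ≤ (n + 2) ^ d + d ∧ (n ^ c + c) + w + 2 * n + 11 ≤ (n + 2) ^ d + d := by
  have h1 := hd (n + 2)
  have h2 : n ^ c ≤ (n + 2 + 2) ^ c := Nat.pow_le_pow_left (by omega) c
  omega

theorem NPA (hREN : REN_stmt) (hBIN : BIN_stmt) (hPOL : POL_stmt) : NPA_stmt := by
  intro A hA
  obtain ⟨c, hc⟩ := hA
  obtain ⟨d, hd⟩ := hPOL 8 c
  have h0 : 1 ≤ 0 ^ d + d := by
    have h1 : 1 ≤ 8 * ((0 + 2) ^ c + 0 + c + 2) := by
      have h2 : 1 ≤ (0 + 2) ^ c + 0 + c + 2 := Nat.le_add_left 1 _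
      exact h2.trans (Nat.le_mul_of_pos_left _ (by norm_num))
    exact h1.trans (hd 0)
  constructor
  · refine ⟨d, fun m => ?_⟩
    match m with
    | 0 =>
      refine ⟨0, Nat.zero_le _, fun _ => false, NPA_mono (NPA_false _) h0, fun x => ?_⟩
      simp [ext]
    | 1 =>
      refine ⟨0, Nat.zero_le _, fun z => z 0, NPA_mono (NPA_var _ _ _) (Nat.zero_le _), fun x => ?_⟩
      have e : ∀ y : Fin 0 → Bool, (Fin.append x y : Fin (1 + 0) → Bool) 0 = x 0 := by
        intro y
        exact Fin.append_left x y 0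
      constructor
      · intro h
        exact ⟨fun i => i.elim0, (e _).trans h⟩
      · rintro ⟨y, hy⟩
        exact (e y).symm.trans hy
    | n + 2 =>
      obtain ⟨w, hw, f, hf, hx⟩ := hc n
      obtain ⟨b1, b2⟩ := NPA_bound c d hd n w hw
      refine ⟨w, b1, NPA_FA n w f, NPA_mono (NPA_sizeA hREN hBIN n w _ f hf) b2, fun z => ?_⟩
      have e1 : ext (fun _ f => eA f) A (n + 2) z = eA (A n) z := rfl
      rw [e1]
      have hx' := hx (fun i => z (Fin.castAdd 2 i))
      unfold eA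
      constructor
      · intro h
        rw [Bool.or_eq_true, Bool.and_eq_true] at h
        rcases h with ⟨h1, h2⟩ | h
        · obtain ⟨y, hy⟩ := hx'.1 h2
          refine ⟨y, ?_⟩
          rw [NPA_valA, hy, h1]
          simp
        · refine ⟨fun _ => false, ?_⟩
          rw [NPA_valA, h, Bool.or_true]
      · rintro ⟨y, hy⟩
        rw [NPA_valA, Bool.or_eq_true, Bool.and_eq_true] at hy
        rw [Bool.or_eq_true, Bool.and_eq_true]
        rcases hy with ⟨h1, h2⟩ | h
        · exact Or.inl ⟨h1, hx'.2 ⟨y, h2⟩⟩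
        · exact Or.inr h
  · refine ⟨d, fun m => ?_⟩
    match m with
    | 0 =>
      refine ⟨0, Nat.zero_le _, fun _ => false, NPA_mono (NPA_false _) h0, fun x => ?_⟩
      simp [ext]
    | 1 =>
      refine ⟨0, Nat.zero_le _, fun z => z 0, NPA_mono (NPA_var _ _ _) (Nat.zero_le _), fun x => ?_⟩
      have e : ∀ y : Fin 0 → Bool, (Fin.append x y : Fin (1 + 0) → Bool) 0 = x 0 := by
        intro y
        exact Fin.append_left x y 0
      constructor
      · intro h
        exact ⟨fun i => i.elim0, (e _).trans h⟩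
      · rintro ⟨y, hy⟩
        exact (e y).symm.trans hy
    | n + 2 =>
      obtain ⟨w, hw, f, hf, hx⟩ := hc n
      obtain ⟨b1, b2⟩ := NPA_bound c d hd n w hw
      refine ⟨w, b1, NPA_FO n w f, NPA_mono (NPA_sizeO hREN hBIN n w _ f hf) b2, fun z => ?_⟩
      have e1 : ext (fun _ f => eO f) A (n + 2) z = eO (A n) z := rfl
      rw [e1]
      have hx' := hx (fun i => z (Fin.castAdd 2 i))
      unfold eO
      constructor
      · intro h
        rw [Bool.and_eq_true, Bool.or_eq_true] at h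
        rcases h with ⟨h1 | h1, h2⟩
        · refine ⟨fun _ => false, ?_⟩
          rw [NPA_valO, h1, h2]
          simp
        · obtain ⟨y, hy⟩ := hx'.1 h1
          refine ⟨y, ?_⟩
          rw [NPA_valO, hy, h2]
          simp
      · rintro ⟨y, hy⟩
        rw [NPA_valO, Bool.and_eq_true, Bool.or_eq_true] at hy
        rw [Bool.and_eq_true, Bool.or_eq_true]
        rcases hy with ⟨h1 | h1, h2⟩
        · exact ⟨Or.inl h1, h2⟩
        · exact ⟨Or.inr (hx'.2 ⟨y, h1⟩), h2⟩

end Pool.Agent.PB
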