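import Pool.Agent.helper64.PB.SpecW

/-!
# pb:WTH — case (W)
-/

set_option autoImplicit false

namespace Pool.Agent.PB

theorem WTH_fAO : dual fOA = fAO := by
  funext x
  unfold dual fOA fAO
  simp

theorem WTH (hMON : MON_stmt) (hWAO : WAO_stmt) (hWMJ : WMJ_stmt) (hWIN : WIN_stmt) (hGDU : GDU_stmt)
    (hDUA : DUA_stmt) : WTH_stmt := by
  intro G hfin hW
  obtain ⟨hdd, hGG, hfd, hsz, _, _, hpr⟩ := hDUA
  obtain ⟨hT, hcase⟩ := hW
  by_cases hm : ∀ g ∈ G, Mono g.2
  · have hC : ¬ ∀ g ∈ G, Conj g.2 := fun h => hT (Or.inr (Or.inl h))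
    have hD : ¬ ∀ g ∈ G, Disj g.2 := fun h => hT (Or.inr (Or.inr h))
    rcases hMON G hm hC hD with h | h | h
    · exact hWAO G hfin hm h
    · refine hGDU G (hWAO (dualB G) (hfd G hfin) ?_ ?_)
      · intro g hg
        exact ((hpr g.1 g.2).1).1 (hm _ hg)
      · obtain ⟨s, hs⟩ := h
        refine ⟨s, ?_⟩
        rw [← WTH_fAO]
        exact (hsz G 3 fOA s).2 hs
    · exact hWMJ G hfin hm h
  · have hn : ∃ g ∈ G, ¬ Mono g.2 := by
      by_contra hc
      refine hm fun g hg => ?_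
      by_contra h2
      exact hc ⟨g, hg, h2⟩
    rcases hcase with h | h | h
    · exact absurd h hm
    · exact hWIN G hfin hn h
    · refine hGDU G (hWIN (dualB G) (hfd G hfin) ?_ h)
      obtain ⟨g, hg, hgm⟩ := hn
      refine ⟨⟨g.1, dual g.2⟩, ?_, ?_⟩
      · have e : (⟨g.1, dual (dual g.2)⟩ : Gate) = g := by rw [hdd]
        have e2 : (⟨g.1, dual (dual g.2)⟩ : Gate) ∈ G := by rw [e]; exact hg
        exact e2
      · intro h3
        exact hgm (((hpr g.1 g.2).1).1 h3)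

end Pool.Agent.PB
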